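import Pool.Agent.Lib.MP_32d917_al.N.NCert

/-!
# MP_32d917_al : the isomorphism problem for uniform lattices in products of trees

There is one algorithm which decides, for two finite presentations of torsion free uniform
lattices in products of trees (any number of factors), whether the groups are isomorphic.
-/

set_option autoImplicit false

namespace Pool.Agent.Results.MP_32d917_al.TreeLattices

/-- The group `G` acts by automorphisms on the trees `S i` (vertex sets `V i`); the trees are
locally finite, every vertex has at least two neighbours and in every tree some vertex has at least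
three; an element fixing a vertex of every tree is trivial, there are finitely many orbits of
vertices of the product of the trees, and `G` is torsion free. -/
structure LatticeAction (G : Type) [Group G] {ι : Type} {V : ι → Type} [∀ i, MulAction G (V i)]
    (S : ∀ i, SimpleGraph (V i)) : Prop where
  tree : ∀ i, (S i).IsTree
  adj : ∀ (g : G) (i : ι) (x y : V i), (S i).Adj x y → (S i).Adj (g • x) (g • y)
  locallyFinite : ∀ (i : ι) (v : V i), ((S i).neighborSet v).Finite
  two : ∀ (i : ι) (v : V i), ∃ x y, x ≠ y ∧ (S i).Adj v x ∧ (S i).Adj v y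
  three : ∀ i : ι, ∃ v x y z, x ≠ y ∧ y ≠ z ∧ x ≠ z ∧ (S i).Adj v x ∧ (S i).Adj v y ∧ (S i).Adj v z
  free : ∀ (g : G) (x : ∀ i, V i), (∀ i, g • x i = x i) → g = 1
  cofinite : ∃ F : Finset (∀ i, V i), ∀ x : ∀ i, V i, ∃ g : G, (fun i => g • x i) ∈ F
  torsionFree : ∀ g : G, g ≠ 1 → ∀ n : ℕ, 0 < n → g ^ n ≠ 1

/-- `G` is a torsion free uniform lattice in a product of `n + 1` trees, for some `n`. -/
def IsTreeLattice (G : Type) [Group G] : Prop :=
  ∃ (n : ℕ) (V : Fin (n + 1) → Type) (_ : ∀ i, MulAction G (V i)) (S : ∀ i, SimpleGraph (V i)),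
    LatticeAction G S

/-- A finite presentation `(n, R)`: generators `x_0, ..., x_(n-1)` and a list `R` of relators,
each written as a list of letters `(i, true)` for `x_i` and `(i, false)` for its inverse. -/
abbrev Presentation : Type := ℕ × List (List (ℕ × Bool))

/-- The group defined by a finite presentation (generators of index at least `n` are killed). -/
abbrev Presentation.Grp (P : Presentation) : Type :=
  PresentedGroup ({r | ∃ w ∈ P.2, r = FreeGroup.mk w} ∪ {r | ∃ i, P.1 ≤ i ∧ r = FreeGroup.of i})

/-- The isomorphism problem is solvable for torsion free uniform lattices in products of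
trees. -/
theorem result : ∃ f : Presentation × Presentation →. Bool, Partrec f ∧
    ∀ P Q : Presentation, IsTreeLattice P.Grp → IsTreeLattice Q.Grp →
      ∃ b ∈ f (P, Q), (b = true ↔ Nonempty (P.Grp ≃* Q.Grp)) := by
  have key : ∀ {G : Type} [Group G], IsTreeLattice G → LatN.IsTreeLattice G := by
    rintro G _ ⟨n, V, _, S, h⟩
    exact ⟨n, V, _, S, ⟨h.tree, h.adj, h.locallyFinite, fun i => ⟨h.two i, h.three i⟩, h.free,
      h.cofinite, h.torsionFree⟩⟩
  obtain ⟨f, hf, h⟩ := LatN.nfinal
  exact ⟨f, hf, fun P Q hP hQ => h P Q (key hP) (key hQ)⟩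

end Pool.Agent.Results.MP_32d917_al.TreeLattices
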